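import Mathlib

/-!
# MP_9ae5d9_al: conjugacy depth of lamplighter-type groups over `ℤ^k`

Q1 and Q2 have negative answers: the conjugacy depth functions of `𝔽_p ≀ ℤ^k` and `ℤ ≀ ℤ^k` grow at
most like `exp(n^5)` and `exp(n^6)`, with exponents that do not depend on `k`.
-/

set_option autoImplicit false

namespace Pool.Agent.Results.MP_9ae5d9_al.ConjDepthUpper

/-- The restricted wreath product `R ≀ A` of abelian groups: pairs of a finitely supported function
`A → R` and an element of `A`. -/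
@[ext]
structure LW (R A : Type) [AddCommGroup R] [AddCommGroup A] where
  /-- the lamp configuration -/
  f : A →₀ R
  /-- the position -/
  b : A

section group

variable {R A : Type} [AddCommGroup R] [AddCommGroup A]

/-- The shift of a function by `c`. -/
noncomputable def sh (c : A) (f : A →₀ R) : A →₀ R := f.mapDomain (fun x => c + x)

theorem sh_apply (c : A) (f : A →₀ R) (x : A) : sh c f x = f (x - c) := by
  have h := Finsupp.mapDomain_apply (add_right_injective c) f (x - c)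
  rwa [add_sub_cancel] at h

theorem sh_zero (f : A →₀ R) : sh 0 f = f := by
  ext x; rw [sh_apply, sub_zero]

theorem sh_sh (c d : A) (f : A →₀ R) : sh c (sh d f) = sh (c + d) f := by
  ext x; rw [sh_apply, sh_apply, sh_apply, sub_sub]

theorem sh_add (c : A) (f g : A →₀ R) : sh c (f + g) = sh c f + sh c g := by
  ext x; simp [sh_apply]

theorem sh_neg (c : A) (f : A →₀ R) : sh c (-f) = - sh c f := by
  ext x; simp [sh_apply]

theorem sh_sub (c : A) (f g : A →₀ R) : sh c (f - g) = sh c f - sh c g := by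
  ext x; simp [sh_apply]

theorem sh_z (c : A) : sh c (0 : A →₀ R) = 0 := by
  ext x; simp [sh_apply]

noncomputable instance : Mul (LW R A) := ⟨fun g h => ⟨g.f + sh g.b h.f, g.b + h.b⟩⟩
noncomputable instance : One (LW R A) := ⟨⟨0, 0⟩⟩
noncomputable instance : Inv (LW R A) := ⟨fun g => ⟨- sh (-g.b) g.f, -g.b⟩⟩

@[simp] theorem mul_f (g h : LW R A) : (g * h).f = g.f + sh g.b h.f := rfl
@[simp] theorem mul_b (g h : LW R A) : (g * h).b = g.b + h.b := rfl
@[simp] theorem one_f : (1 : LW R A).f = 0 := rfl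
@[simp] theorem one_b : (1 : LW R A).b = 0 := rfl
@[simp] theorem inv_f (g : LW R A) : g⁻¹.f = - sh (-g.b) g.f := rfl
@[simp] theorem inv_b (g : LW R A) : g⁻¹.b = -g.b := rfl

noncomputable instance : Group (LW R A) :=
  Group.ofLeftAxioms
    (by
      intro a b c
      ext1
      · simp [sh_add, sh_sh, add_assoc]
      · simp [add_assoc])
    (by
      intro a
      ext1
      · simp [sh_zero]
      · simp)
    (by
      intro a
      ext1
      · simp
      · simp)

/-- Conjugacy in `R ≀ A`. -/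
theorem isConj_iff' (g h : LW R A) : IsConj g h ↔ g.b = h.b ∧
    ∃ (c : A) (u : A →₀ R), h.f = sh c g.f + (u - sh g.b u) := by
  rw [isConj_iff]
  constructor
  · rintro ⟨x, hx⟩
    rw [mul_inv_eq_iff_eq_mul] at hx
    have h1 := congrArg LW.b hx
    have h2 := congrArg LW.f hx
    simp only [mul_b, mul_f] at h1 h2
    have hb : g.b = h.b := by
      rw [add_comm] at h1
      exact add_right_cancel h1
    refine ⟨hb, x.b, x.f, ?_⟩
    rw [hb]
    have h3 : h.f = x.f + sh x.b g.f - sh h.b x.f := by rw [h2]; abel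
    rw [h3]; abel
  · rintro ⟨hb, c, u, hu⟩
    refine ⟨⟨u, c⟩, ?_⟩
    rw [mul_inv_eq_iff_eq_mul]
    ext1
    · show u + sh c g.f = h.f + sh h.b u
      rw [hu, ← hb]; abel
    · show c + g.b = h.b + c
      rw [hb, add_comm]

/-- Functoriality in the acting group. -/
noncomputable def mapHom {A' : Type} [AddCommGroup A'] (θ : A →+ A') : LW R A →* LW R A' where
  toFun g := ⟨g.f.mapDomain θ, θ g.b⟩
  map_one' := by
    ext1
    · show (0 : A →₀ R).mapDomain θ = 0
      exact Finsupp.mapDomain_zero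
    · exact map_zero θ
  map_mul' g h := by
    ext1
    · show (g.f + sh g.b h.f).mapDomain θ = g.f.mapDomain θ + sh (θ g.b) (h.f.mapDomain θ)
      rw [Finsupp.mapDomain_add]
      congr 1
      rw [sh, sh, ← Finsupp.mapDomain_comp, ← Finsupp.mapDomain_comp]
      congr 1
      funext x
      exact map_add θ _ _
    · exact map_add θ _ _

theorem mapDomain_sh {A' : Type} [AddCommGroup A'] (θ : A →+ A') (c : A) (f : A →₀ R) :
    (sh c f).mapDomain θ = sh (θ c) (f.mapDomain θ) := by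
  rw [sh, sh, ← Finsupp.mapDomain_comp, ← Finsupp.mapDomain_comp]
  congr 1
  funext x
  exact map_add θ _ _

/-- Functoriality in the lamp group. -/
noncomputable def coefHom {R' : Type} [AddCommGroup R'] (ρ : R →+ R') : LW R A →* LW R' A where
  toFun g := ⟨g.f.mapRange ρ (map_zero ρ), g.b⟩
  map_one' := by
    ext1
    · show (0 : A →₀ R).mapRange ρ (map_zero ρ) = 0
      exact Finsupp.mapRange_zero
    · rfl
  map_mul' g h := by
    ext1
    · ext x
      show ρ ((g.f + sh g.b h.f) x) = ρ (g.f x) + sh g.b (h.f.mapRange ρ (map_zero ρ)) x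
      rw [sh_apply, Finsupp.mapRange_apply, Finsupp.add_apply, sh_apply, map_add]
    · rfl

/-- A function is a coboundary `u - sh b u` as soon as a map `θ` which separates its support modulo
`ℤ b` kills it. -/
theorem coboundary {A' : Type} (b : A) (θ : A → A') (v : A →₀ R)
    (hsep : ∀ x ∈ v.support, ∀ y ∈ v.support, θ x = θ y → ∃ j : ℤ, x - y = j • b)
    (h0 : v.mapDomain θ = 0) : ∃ u : A →₀ R, v = u - sh b u := by
  classical
  -- the subgroup of coboundaries
  let I : AddSubgroup (A →₀ R) :=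
    { carrier := {v | ∃ u : A →₀ R, v = u - sh b u}
      zero_mem' := ⟨0, by rw [sh_z, sub_zero]⟩
      add_mem' := by
        rintro _ _ ⟨u, rfl⟩ ⟨u', rfl⟩
        exact ⟨u + u', by rw [sh_add]; abel⟩
      neg_mem' := by
        rintro _ ⟨u, rfl⟩
        exact ⟨-u, by rw [sh_neg]; abel⟩ }
  have hsingle : ∀ (x : A) (r : R), Finsupp.single x r - Finsupp.single (x + b) r ∈ I := by
    intro x r
    refine ⟨Finsupp.single x r, ?_⟩
    rw [sh, Finsupp.mapDomain_single, add_comm b x]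
  have hnat : ∀ (j : ℕ) (x : A) (r : R),
      Finsupp.single x r - Finsupp.single (x + j • b) r ∈ I := by
    intro j
    induction j with
    | zero => intro x r; simp [I.zero_mem]
    | succ j ih =>
      intro x r
      have h1 := I.add_mem (ih x r) (hsingle (x + j • b) r)
      rw [sub_add_sub_cancel, add_assoc, ← succ_nsmul] at h1
      exact h1
  have hint : ∀ (j : ℤ) (x : A) (r : R),
      Finsupp.single (x + j • b) r - Finsupp.single x r ∈ I := by
    intro j x r
    rcases Int.eq_nat_or_neg j with ⟨m, rfl | rfl⟩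
    · have h1 := I.neg_mem (hnat m x r)
      rw [neg_sub] at h1
      simpa using h1
    · have h1 := hnat m (x + (-(m : ℤ)) • b) r
      have h2 : x + (-(m : ℤ)) • b + m • b = x := by simp
      rw [h2] at h1
      exact h1
  -- a section of θ
  let s : A' → A := fun a => if h : ∃ y ∈ v.support, θ y = a then h.choose else 0
  have hs : ∀ x ∈ v.support, ∃ j : ℤ, x - s (θ x) = j • b := by
    intro x hx
    have h : ∃ y ∈ v.support, θ y = θ x := ⟨x, hx, rfl⟩
    have h1 : s (θ x) = h.choose := dif_pos h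
    rw [h1]
    exact hsep x hx _ h.choose_spec.1 h.choose_spec.2.symm
  have hmem : v - v.mapDomain (s ∘ θ) ∈ I := by
    have e1 : v = v.sum (fun x r => Finsupp.single x r) := (Finsupp.sum_single v).symm
    have e2 : v.mapDomain (s ∘ θ) = v.sum (fun x r => Finsupp.single (s (θ x)) r) := rfl
    rw [e2]
    nth_rewrite 1 [e1]
    rw [Finsupp.sum, Finsupp.sum, ← Finset.sum_sub_distrib]
    apply I.sum_mem
    intro x hx
    obtain ⟨j, hj⟩ := hs x hx
    have h2 : x = s (θ x) + j • b := by rw [← hj]; abel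
    have h3 := hint j (s (θ x)) (v x)
    rw [← h2] at h3
    exact h3
  rw [Finsupp.mapDomain_comp, h0, Finsupp.mapDomain_zero, sub_zero] at hmem
  exact hmem

/-- The class sums modulo `ℤ b`. -/
noncomputable def cls (b : A) (v : A →₀ R) : (A ⧸ AddSubgroup.zmultiples b) →₀ R :=
  v.mapDomain (QuotientAddGroup.mk : A → A ⧸ AddSubgroup.zmultiples b)

theorem mk_eq_iff (b x y : A) : (QuotientAddGroup.mk x : A ⧸ AddSubgroup.zmultiples b) =
    QuotientAddGroup.mk y ↔ ∃ j : ℤ, x - y = j • b := by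
  rw [QuotientAddGroup.eq_iff_sub_mem, AddSubgroup.mem_zmultiples_iff]
  constructor
  · rintro ⟨j, hj⟩; exact ⟨j, hj.symm⟩
  · rintro ⟨j, hj⟩; exact ⟨j, hj.symm⟩

/-- A function that is not a coboundary has a point `x` in a class with nonzero sum, and any
homomorphism `θ` killing `b` and separating `x` from the other classes sees this class sum. -/
theorem exists_point (b : A) (v : A →₀ R) (hv : ¬ ∃ u : A →₀ R, v = u - sh b u) :
    ∃ x ∈ v.support, cls b v (QuotientAddGroup.mk x) ≠ 0 ∧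
      ∀ {A' R' : Type} [AddCommGroup A'] [AddCommGroup R'] (θ : A →+ A') (ρ : R →+ R'), θ b = 0 →
        (∀ y ∈ v.support, θ (x - y) = 0 → ∃ j : ℤ, x - y = j • b) →
        (v.mapRange ρ (map_zero ρ)).mapDomain θ (θ x) = ρ (cls b v (QuotientAddGroup.mk x)) := by
  classical
  have h1 : cls b v ≠ 0 := by
    intro h0
    apply hv
    refine coboundary b (QuotientAddGroup.mk : A → A ⧸ AddSubgroup.zmultiples b) v ?_ h0
    intro x _ y _ hxy
    exact (mk_eq_iff b x y).mp hxy
  obtain ⟨a, ha⟩ := Finsupp.ne_iff.mp h1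
  rw [Finsupp.zero_apply] at ha
  obtain ⟨x, hx, hxa⟩ := Finset.mem_image.mp
    (Finsupp.mapDomain_support (Finsupp.mem_support_iff.mpr ha))
  refine ⟨x, hx, by rw [hxa]; exact ha, ?_⟩
  intro A' R' _ _ θ ρ hθb hsep
  have e1 : (v.mapRange ρ (map_zero ρ)).mapDomain θ = (v.mapDomain θ).mapRange ρ (map_zero ρ) := by
    rw [Finsupp.mapDomain_mapRange]
    exact map_add ρ
  rw [e1, Finsupp.mapRange_apply]
  congr 1
  rw [cls, Finsupp.mapDomain, Finsupp.mapDomain, Finsupp.sum_apply, Finsupp.sum_apply,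
    Finsupp.sum, Finsupp.sum]
  apply Finset.sum_congr rfl
  intro y hy
  rw [Finsupp.single_apply, Finsupp.single_apply]
  congr 1
  apply propext
  constructor
  · intro h
    obtain ⟨j, hj⟩ := hsep y hy (by rw [map_sub, h, sub_self])
    exact ((mk_eq_iff b x y).mpr ⟨j, hj⟩).symm
  · intro h
    obtain ⟨j, hj⟩ := (mk_eq_iff b y x).mp h
    have : θ (y - x) = 0 := by rw [hj, map_zsmul, hθb, smul_zero]
    rwa [map_sub, sub_eq_zero] at this

/-- The key separation statement: for non-conjugate elements with the same translation part `b`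
there is a small set `D` of differences such that any homomorphism `θ` killing `b` and separating
the elements of `D` from `ℤ b` has the property that the images of the two elements are not
translates of each other (and this remains so after a change of the lamp group which does not kill
the class sums). -/
theorem exists_sep (b : A) (f f' : A →₀ R) (L : ℕ) (hL : 0 < L) (hf : f.support.card ≤ L)
    (hf' : f'.support.card ≤ L) (hnc : ¬ IsConj (⟨f, b⟩ : LW R A) ⟨f', b⟩) :
    ∃ D : Finset A, D.card ≤ 3 * L ^ 2 ∧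
      (∀ d ∈ D, ∃ c x y, d = x - y ∧
        (x ∈ f.support ∨ x ∈ f'.support ∨ ∃ t ∈ f.support, x = c + t) ∧
        (y ∈ f.support ∨ y ∈ f'.support ∨ ∃ t ∈ f.support, y = c + t) ∧
        (c = 0 ∨ ∃ s' ∈ f'.support, ∃ s ∈ f.support, c = s' - s)) ∧
      ∀ {A' R' : Type} [AddCommGroup A'] [AddCommGroup R'] (θ : A →+ A') (ρ : R →+ R'), θ b = 0 →
        (∀ d ∈ D, θ d = 0 → ∃ j : ℤ, d = j • b) →
        (∀ a, ρ (cls b f a) = 0 → cls b f a = 0) → (∀ a, ρ (cls b f' a) = 0 → cls b f' a = 0) →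
        (∀ c a, ρ (cls b (f' - sh c f) a) = 0 → cls b (f' - sh c f) a = 0) →
        ∀ c : A', (f'.mapRange ρ (map_zero ρ)).mapDomain θ ≠
          sh c ((f.mapRange ρ (map_zero ρ)).mapDomain θ) := by
  classical
  have hL2 : L ≤ L ^ 2 := by nlinarith
  have hnc' : ∀ (c : A) (u : A →₀ R), f' ≠ sh c f + (u - sh b u) := by
    intro c u h
    exact hnc ((isConj_iff' _ _).mpr ⟨rfl, c, u, h⟩)
  have hsupp : ∀ c x, x ∈ (f' - sh c f).support → x ∈ f'.support ∨ ∃ t ∈ f.support, x = c + t := by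
    intro c x hx
    rw [Finsupp.mem_support_iff, Finsupp.sub_apply, sh_apply] at hx
    by_cases h1 : f' x = 0
    · right
      refine ⟨x - c, ?_, by abel⟩
      rw [Finsupp.mem_support_iff]
      intro h2
      rw [h1, h2, sub_zero] at hx
      exact hx rfl
    · left
      exact Finsupp.mem_support_iff.mpr h1
  have hscard : ∀ c, (f' - sh c f).support.card ≤ 2 * L := by
    intro c
    have h1 : (f' - sh c f).support ⊆ f'.support ∪ f.support.image (fun t => c + t) := by
      intro x hx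
      rw [Finset.mem_union, Finset.mem_image]
      rcases hsupp c x hx with h | ⟨t, ht, rfl⟩
      · exact Or.inl h
      · exact Or.inr ⟨t, ht, rfl⟩
    have h2 := Finset.card_le_card h1
    have h3 := Finset.card_union_le f'.support (f.support.image (fun t => c + t))
    have h4 : (f.support.image (fun t => c + t)).card ≤ f.support.card := Finset.card_image_le
    omega
  by_cases hcob : ∃ u : A →₀ R, f = u - sh b u
  · -- `f` is a coboundary
    obtain ⟨u, hu⟩ := hcob
    have hcob' : ¬ ∃ u' : A →₀ R, f' = u' - sh b u' := by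
      rintro ⟨u', hu'⟩
      apply hnc' 0 (u' - u)
      rw [sh_zero, sh_sub]
      nth_rewrite 1 [hu']
      nth_rewrite 1 [hu]
      abel
    obtain ⟨x, hx, hx0, hxθ⟩ := exists_point b f' hcob'
    refine ⟨f'.support.image (fun y => x - y), ?_, ?_, ?_⟩
    · refine Finset.card_image_le.trans ?_
      omega
    · intro d hd
      obtain ⟨y, hy, rfl⟩ := Finset.mem_image.mp hd
      exact ⟨0, x, y, rfl, Or.inr (Or.inl hx), Or.inr (Or.inl hy), Or.inl rfl⟩
    · intro A' R' _ _ θ ρ hθb hD h1 h2 h3 c hc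
      have e1 := hxθ θ ρ hθb (by
        intro y hy h
        exact hD _ (Finset.mem_image_of_mem _ hy) h)
      have e2 : (f.mapRange ρ (map_zero ρ)).mapDomain θ = 0 := by
        have e3 : f.mapRange ρ (map_zero ρ) =
            u.mapRange ρ (map_zero ρ) - sh b (u.mapRange ρ (map_zero ρ)) := by
          ext z
          rw [hu, Finsupp.mapRange_apply, Finsupp.sub_apply, Finsupp.sub_apply, sh_apply, sh_apply,
            map_sub, Finsupp.mapRange_apply, Finsupp.mapRange_apply]
        have e4 : (f.mapRange ρ (map_zero ρ)).mapDomain θ +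
            (sh b (u.mapRange ρ (map_zero ρ))).mapDomain θ =
            (u.mapRange ρ (map_zero ρ)).mapDomain θ := by
          rw [← Finsupp.mapDomain_add, e3, sub_add_cancel]
        rw [mapDomain_sh, hθb, sh_zero] at e4
        exact add_eq_right.mp e4
      rw [hc, e2, sh_z, Finsupp.zero_apply] at e1
      exact hx0 (h2 _ e1.symm)
  · -- `f` is not a coboundary
    obtain ⟨s, hs, hs0, hsθ⟩ := exists_point b f hcob
    have hv : ∀ s' : A, ¬ ∃ u : A →₀ R, (f' - sh (s' - s) f) = u - sh b u := by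
      rintro s' ⟨u, hu⟩
      apply hnc' (s' - s) u
      rw [← hu]; abel
    choose x hx hx0 hxθ using fun s' => exists_point b _ (hv s')
    refine ⟨f.support.image (fun y => s - y) ∪ f'.support.biUnion (fun s' =>
      (f' - sh (s' - s) f).support.image (fun y => x s' - y)), ?_, ?_, ?_⟩
    · refine (Finset.card_union_le _ _).trans ?_
      have h1 : (f.support.image (fun y => s - y)).card ≤ L := Finset.card_image_le.trans hf
      have h2 : (f'.support.biUnion (fun s' =>
          (f' - sh (s' - s) f).support.image (fun y => x s' - y))).card ≤ L * (2 * L) := by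
        refine (Finset.card_biUnion_le_card_mul _ _ (2 * L) ?_).trans (Nat.mul_le_mul_right _ hf')
        intro s' _
        exact Finset.card_image_le.trans (hscard _)
      nlinarith
    · intro d hd
      rcases Finset.mem_union.mp hd with h | h
      · obtain ⟨y, hy, rfl⟩ := Finset.mem_image.mp h
        exact ⟨0, s, y, rfl, Or.inl hs, Or.inl hy, Or.inl rfl⟩
      · obtain ⟨s', hs', h⟩ := Finset.mem_biUnion.mp h
        obtain ⟨y, hy, rfl⟩ := Finset.mem_image.mp h
        refine ⟨s' - s, x s', y, rfl, Or.inr (hsupp _ _ (hx s')), Or.inr (hsupp _ _ hy),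
          Or.inr ⟨s', hs', s, hs, rfl⟩⟩
    · intro A' R' _ _ θ ρ hθb hD h1 h2 h3 c hc
      have e1 := hsθ θ ρ hθb (by
        intro y hy h
        exact hD _ (Finset.mem_union_left _ (Finset.mem_image_of_mem _ hy)) h)
      have e2 : (f'.mapRange ρ (map_zero ρ)).mapDomain θ (c + θ s) =
          ρ (cls b f (QuotientAddGroup.mk s)) := by
        rw [hc, sh_apply, add_sub_cancel_left, e1]
      have e3 : (c + θ s) ∈ ((f'.mapRange ρ (map_zero ρ)).mapDomain θ).support := by
        rw [Finsupp.mem_support_iff, e2]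
        exact fun h => hs0 (h1 _ h)
      obtain ⟨s', hs', hs'c⟩ := Finset.mem_image.mp (Finsupp.mapDomain_support e3)
      have hs'' : s' ∈ f'.support := Finsupp.support_mapRange hs'
      have e4 := hxθ s' θ ρ hθb (by
        intro y hy h
        exact hD _ (Finset.mem_union_right _ (Finset.mem_biUnion.mpr
          ⟨s', hs'', Finset.mem_image_of_mem _ hy⟩)) h)
      have e5 : c = θ (s' - s) := by
        rw [map_sub, hs'c]; abel
      have e6 : ((f' - sh (s' - s) f).mapRange ρ (map_zero ρ)) =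
          f'.mapRange ρ (map_zero ρ) - sh (s' - s) (f.mapRange ρ (map_zero ρ)) := by
        ext z
        rw [Finsupp.mapRange_apply, Finsupp.sub_apply, Finsupp.sub_apply, sh_apply, sh_apply,
          map_sub, Finsupp.mapRange_apply, Finsupp.mapRange_apply]
      have e7 : ((f' - sh (s' - s) f).mapRange ρ (map_zero ρ)).mapDomain θ +
          (sh (s' - s) (f.mapRange ρ (map_zero ρ))).mapDomain θ =
          (f'.mapRange ρ (map_zero ρ)).mapDomain θ := by
        rw [← Finsupp.mapDomain_add, e6, sub_add_cancel]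
      rw [mapDomain_sh, ← e5, hc] at e7
      have e8 := add_eq_right.mp e7
      rw [e8, Finsupp.zero_apply] at e4
      exact hx0 s' (h3 _ _ e4.symm)

end group

section theta

open Polynomial

variable {k : ℕ}

/-- The functional `x ↦ ∑ Λ(x)_i t^i` modulo `M`. -/
noncomputable def psi (M : ℕ) (Λ : (Fin k → ℤ) →+ (Fin k → ℤ)) (t : ZMod M) :
    (Fin k → ℤ) →+ ZMod M where
  toFun x := ∑ i, ((Λ x i : ℤ) : ZMod M) * t ^ (i : ℕ)
  map_zero' := by simp
  map_add' x y := by
    rw [← Finset.sum_add_distrib]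
    apply Finset.sum_congr rfl
    intro i _
    rw [map_add, Pi.add_apply]
    push_cast
    ring

/-- A good choice of `t`. -/
theorem exists_t (M : ℕ) [hp : Fact M.Prime] (Λ : (Fin k → ℤ) →+ (Fin k → ℤ))
    (D : Finset (Fin k → ℤ)) (hD : ∀ d ∈ D, Λ d ≠ 0 → ∃ i, ((Λ d i : ℤ) : ZMod M) ≠ 0)
    (hM : D.card * k < M) :
    ∃ t : ZMod M, ∀ d ∈ D, Λ d ≠ 0 → psi M Λ t d ≠ 0 := by
  classical
  let P : (Fin k → ℤ) → (ZMod M)[X] := fun d => ∑ i, C ((Λ d i : ℤ) : ZMod M) * X ^ (i : ℕ)
  have hcoeff : ∀ d (i : Fin k), (P d).coeff i = ((Λ d i : ℤ) : ZMod M) := by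
    intro d i
    simp only [P, finsetSum_coeff, coeff_C_mul, coeff_X_pow]
    rw [Finset.sum_eq_single i]
    · simp
    · intro j _ hj
      rw [if_neg (fun h => hj (Fin.ext h.symm)), mul_zero]
    · simp
  have hdeg : ∀ d, (P d).natDegree ≤ k := by
    intro d
    apply natDegree_sum_le_of_forall_le
    intro i _
    refine (natDegree_C_mul_X_pow_le _ _).trans i.2.le
  set bad : Finset (ZMod M) := D.biUnion (fun d => (P d).roots.toFinset) with hbad
  have hcard : bad.card < Fintype.card (ZMod M) := by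
    rw [ZMod.card M]
    refine lt_of_le_of_lt ?_ hM
    rw [hbad]
    refine Finset.card_biUnion_le_card_mul _ _ _ ?_
    intro d _
    exact (Multiset.toFinset_card_le _).trans ((card_roots' _).trans (hdeg d))
  obtain ⟨t, ht⟩ : ∃ t, t ∉ bad := by
    by_contra hcon
    push Not at hcon
    have : bad = Finset.univ := Finset.eq_univ_of_forall hcon
    rw [this, Finset.card_univ] at hcard
    exact lt_irrefl _ hcard
  refine ⟨t, fun d hd hΛ h0 => ht ?_⟩
  rw [hbad, Finset.mem_biUnion]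
  refine ⟨d, hd, ?_⟩
  rw [Multiset.mem_toFinset, mem_roots']
  refine ⟨?_, ?_⟩
  · intro hP
    obtain ⟨i, hi⟩ := hD d hd hΛ
    apply hi
    rw [← hcoeff, hP, coeff_zero]
  · rw [IsRoot.def, eval_finsetSum]
    simp only [eval_mul, eval_C, eval_pow, eval_X]
    exact h0

theorem cast_ne_zero {M : ℕ} {a : ℤ} (ha : a ≠ 0) (h : |a| < M) : ((a : ℤ) : ZMod M) ≠ 0 := by
  intro h0
  rw [ZMod.intCast_zmod_eq_zero_iff_dvd] at h0
  exact ha (Int.eq_zero_of_abs_lt_dvd h0 h)

/-- A small finite quotient of `ℤ^k` which kills `b` and separates given vectors from `ℤ b`. -/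
theorem exists_theta (b : Fin k → ℤ) (B B' : ℕ) (hb : ∀ i, |b i| ≤ B) (D : Finset (Fin k → ℤ))
    (hD : ∀ d ∈ D, ∀ i, |d i| ≤ B') (M : ℕ) [hp : Fact M.Prime] (hM1 : B' < M)
    (hM2 : 2 * (B * B') < M) (hM3 : D.card * k < M) :
    ∃ m : ℕ, 0 < m ∧ m ≤ B + 1 ∧ ∃ θ : (Fin k → ℤ) →+ ZMod M × ZMod m,
      θ b = 0 ∧ ∀ d ∈ D, θ d = 0 → ∃ j : ℤ, d = j • b := by
  classical
  by_cases hb0 : b = 0
  · -- `b = 0`
    obtain ⟨t, ht⟩ := exists_t M (AddMonoidHom.id _) D (by
      intro d hd hne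
      obtain ⟨i, hi⟩ := Function.ne_iff.mp hne
      exact ⟨i, cast_ne_zero hi ((hD d hd i).trans_lt (by exact_mod_cast hM1))⟩) hM3
    refine ⟨1, Nat.one_pos, by omega, (psi M (AddMonoidHom.id _) t).prod 0, ?_, ?_⟩
    · rw [hb0, map_zero]
    · intro d hd h0
      by_cases hd0 : d = 0
      · exact ⟨0, by rw [hd0, zero_smul]⟩
      · exfalso
        refine ht d hd hd0 ?_
        exact congrArg Prod.fst h0
  · obtain ⟨j, hj⟩ := Function.ne_iff.mp hb0
    rw [Pi.zero_apply] at hj
    let Λ : (Fin k → ℤ) →+ (Fin k → ℤ) :=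
      { toFun := fun x i => b j * x i - b i * x j
        map_zero' := by funext i; simp
        map_add' := by intro x y; funext i; simp only [Pi.add_apply]; ring }
    have hΛ : ∀ x i, Λ x i = b j * x i - b i * x j := fun x i => rfl
    obtain ⟨t, ht⟩ := exists_t M Λ D (by
      intro d hd hne
      obtain ⟨i, hi⟩ := Function.ne_iff.mp hne
      refine ⟨i, cast_ne_zero hi ?_⟩
      rw [hΛ]
      have h1 : |b j * d i - b i * d j| ≤ |b j * d i| + |b i * d j| := abs_sub _ _
      rw [abs_mul, abs_mul] at h1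
      have h2 : |b j| * |d i| ≤ B * B' :=
        mul_le_mul (hb j) (hD d hd i) (abs_nonneg _) (Nat.cast_nonneg _)
      have h3 : |b i| * |d j| ≤ B * B' :=
        mul_le_mul (hb i) (hD d hd j) (abs_nonneg _) (Nat.cast_nonneg _)
      have h4 : (2 * (B * B') : ℤ) < M := by exact_mod_cast hM2
      linarith) hM3
    set m := (b j).natAbs with hm
    let χ : (Fin k → ℤ) →+ ZMod m :=
      { toFun := fun x => ((x j : ℤ) : ZMod m)
        map_zero' := by simp
        map_add' := by intro x y; simp }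
    refine ⟨m, Int.natAbs_pos.mpr hj, ?_, (psi M Λ t).prod χ, ?_, ?_⟩
    · have := hb j
      rw [Int.abs_eq_natAbs] at this
      omega
    · apply Prod.ext
      · show ∑ i, ((Λ b i : ℤ) : ZMod M) * t ^ (i : ℕ) = 0
        apply Finset.sum_eq_zero
        intro i _
        rw [hΛ, show b j * b i - b i * b j = 0 by ring]
        simp
      · show ((b j : ℤ) : ZMod m) = 0
        rw [ZMod.intCast_zmod_eq_zero_iff_dvd, hm]
        exact Int.natAbs_dvd.mpr dvd_rfl
    · intro d hd h0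
      have h1 : psi M Λ t d = 0 := congrArg Prod.fst h0
      have h2 : ((d j : ℤ) : ZMod m) = 0 := congrArg Prod.snd h0
      by_cases hΛd : Λ d = 0
      · rw [ZMod.intCast_zmod_eq_zero_iff_dvd, hm, Int.natAbs_dvd] at h2
        obtain ⟨q, hq⟩ := h2
        refine ⟨q, ?_⟩
        funext i
        have h3 := congrFun hΛd i
        rw [hΛ, Pi.zero_apply, hq] at h3
        apply mul_left_cancel₀ hj
        rw [Pi.smul_apply, smul_eq_mul]
        linear_combination h3
      · exact absurd h1 (ht d hd hΛd)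

end theta

section growth

variable {R : Type} [AddCommGroup R] {k : ℕ}

/-- `|g| ≤ n` in the word length with respect to `S`. -/
def LenLE {G : Type} [Group G] (S : Set G) (g : G) (n : ℕ) : Prop :=
  ∃ l : List G, (∀ s ∈ l, s ∈ S ∨ s⁻¹ ∈ S) ∧ l.length ≤ n ∧ l.prod = g

/-- The element `g` is bounded by `C`. -/
def Bdd (g : LW R (Fin k → ℤ)) (C : ℕ) : Prop :=
  g.f.support.card ≤ C ∧ (∀ x ∈ g.f.support, ∀ i, |x i| ≤ C) ∧ ∀ i, |g.b i| ≤ C

theorem Bdd.mono {g : LW R (Fin k → ℤ)} {C C' : ℕ} (h : Bdd g C) (hC : C ≤ C') : Bdd g C' := by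
  have hC' : (C : ℤ) ≤ C' := by exact_mod_cast hC
  exact ⟨h.1.trans hC, fun x hx i => (h.2.1 x hx i).trans hC', fun i => (h.2.2 i).trans hC'⟩

theorem exists_bdd (g : LW R (Fin k → ℤ)) : ∃ C, Bdd g C := by
  classical
  set C1 := g.f.support.card
  set C2 := g.f.support.sup (fun x => Finset.univ.sup (fun i => (x i).natAbs))
  set C3 := Finset.univ.sup (fun i => (g.b i).natAbs)
  refine ⟨C1 + C2 + C3, ?_, ?_, ?_⟩
  · omega
  · intro x hx i
    have h1 : (x i).natAbs ≤ Finset.univ.sup (fun i => (x i).natAbs) :=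
      Finset.le_sup (f := fun i => (x i).natAbs) (Finset.mem_univ i)
    have h2 : Finset.univ.sup (fun i => (x i).natAbs) ≤ C2 :=
      Finset.le_sup (f := fun x : Fin k → ℤ => Finset.univ.sup (fun i => (x i).natAbs)) hx
    rw [Int.abs_eq_natAbs]
    exact_mod_cast (by omega : (x i).natAbs ≤ C1 + C2 + C3)
  · intro i
    have h1 : (g.b i).natAbs ≤ C3 := Finset.le_sup (f := fun i => (g.b i).natAbs) (Finset.mem_univ i)
    rw [Int.abs_eq_natAbs]
    exact_mod_cast (by omega : (g.b i).natAbs ≤ C1 + C2 + C3)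

theorem Bdd.mul {g h : LW R (Fin k → ℤ)} {C C' : ℕ} (hg : Bdd g C) (hh : Bdd h C') :
    Bdd (g * h) (C + C') := by
  classical
  have hsup : (g * h).f.support ⊆ g.f.support ∪ h.f.support.image (fun x => g.b + x) := by
    rw [mul_f]
    refine Finsupp.support_add.trans (Finset.union_subset_union le_rfl ?_)
    exact Finsupp.mapDomain_support
  refine ⟨?_, ?_, ?_⟩
  · refine (Finset.card_le_card hsup).trans ((Finset.card_union_le _ _).trans ?_)
    exact Nat.add_le_add hg.1 (Finset.card_image_le.trans hh.1)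
  · intro x hx i
    have h1 := hsup hx
    rw [Finset.mem_union, Finset.mem_image] at h1
    push_cast
    rcases h1 with h1 | ⟨y, hy, rfl⟩
    · have := hg.2.1 x h1 i
      have h0 : (0 : ℤ) ≤ C' := Nat.cast_nonneg _
      linarith
    · have h2 := hh.2.1 y hy i
      have h3 := hg.2.2 i
      have h4 : |(g.b + y) i| ≤ |g.b i| + |y i| := abs_add_le _ _
      linarith
  · intro i
    push_cast
    have h2 := hh.2.2 i
    have h3 := hg.2.2 i
    have h4 : |(g * h).b i| ≤ |g.b i| + |h.b i| := abs_add_le _ _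
    linarith

/-- Words of length `n` are bounded linearly in `n`. -/
theorem bdd_of_len (S : Set (LW R (Fin k → ℤ))) (hS : S.Finite) :
    ∃ C : ℕ, 0 < C ∧ ∀ n g, LenLE S g n → Bdd g (C * n) := by
  classical
  have hfin : (S ∪ S⁻¹).Finite := hS.union hS.inv
  have hC : ∀ᶠ C : ℕ in Filter.atTop, ∀ s ∈ hfin.toFinset, Bdd s C := by
    rw [Filter.eventually_all_finset]
    intro s _
    obtain ⟨C, hC⟩ := exists_bdd s
    filter_upwards [Filter.eventually_ge_atTop C] with C' hC'
    exact hC.mono hC'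
  obtain ⟨C, hC, hC0⟩ := (hC.and (Filter.eventually_gt_atTop 0)).exists
  refine ⟨C, hC0, ?_⟩
  rintro n g ⟨l, h1, h2, rfl⟩
  have key : ∀ l : List (LW R (Fin k → ℤ)), (∀ s ∈ l, s ∈ S ∨ s⁻¹ ∈ S) → Bdd l.prod (C * l.length) := by
    intro l
    induction l with
    | nil =>
      intro _
      refine ⟨?_, ?_, ?_⟩
      · simp
      · intro x hx; simp at hx
      · intro i; simp
    | cons s l ih =>
      intro hl
      rw [List.prod_cons, List.length_cons, Nat.mul_succ, Nat.add_comm]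
      apply Bdd.mul
      · apply hC
        rw [Set.Finite.mem_toFinset]
        exact hl s List.mem_cons_self
      · exact ih (fun t ht => hl t (List.mem_cons_of_mem _ ht))
  exact (key l h1).mono (Nat.mul_le_mul_left _ h2)

/-- The `ℓ¹`-norm of an integer valued function. -/
def n1 {A : Type} (f : A →₀ ℤ) : ℕ := ∑ x ∈ f.support, (f x).natAbs

theorem n1_eq_sum {A : Type} (f : A →₀ ℤ) (T : Finset A) (hT : f.support ⊆ T) :
    n1 f = ∑ x ∈ T, (f x).natAbs := by
  apply Finset.sum_subset hT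
  intro x _ hx
  rw [Finsupp.notMem_support_iff.mp hx]
  rfl

theorem n1_add_le {A : Type} (f g : A →₀ ℤ) : n1 (f + g) ≤ n1 f + n1 g := by
  classical
  rw [n1_eq_sum f (f.support ∪ g.support) Finset.subset_union_left,
    n1_eq_sum g (f.support ∪ g.support) Finset.subset_union_right,
    n1_eq_sum (f + g) (f.support ∪ g.support) Finsupp.support_add, ← Finset.sum_add_distrib]
  apply Finset.sum_le_sum
  intro x _
  rw [Finsupp.add_apply]
  exact Int.natAbs_add_le _ _

theorem n1_neg {A : Type} (f : A →₀ ℤ) : n1 (-f) = n1 f := by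
  unfold n1
  rw [Finsupp.support_neg]
  apply Finset.sum_congr rfl
  intro x _
  rw [Finsupp.neg_apply, Int.natAbs_neg]

theorem n1_sh {A : Type} [AddCommGroup A] (c : A) (f : A →₀ ℤ) : n1 (sh c f) = n1 f := by
  classical
  have h1 : (sh c f).support = f.support.image (fun x => c + x) :=
    Finsupp.mapDomain_support_of_injective (add_right_injective c) f
  unfold n1
  rw [h1, Finset.sum_image (fun x _ y _ h => add_left_cancel h)]
  apply Finset.sum_congr rfl
  intro x _
  rw [sh_apply, add_sub_cancel_left]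

theorem n1_sub_le {A : Type} (f g : A →₀ ℤ) : n1 (f - g) ≤ n1 f + n1 g := by
  rw [sub_eq_add_neg, ← n1_neg g]
  exact n1_add_le _ _

theorem natAbs_mapDomain_le {A B : Type} (θ : A → B) (f : A →₀ ℤ) (a : B) :
    (f.mapDomain θ a).natAbs ≤ n1 f := by
  classical
  rw [Finsupp.mapDomain, Finsupp.sum_apply, Finsupp.sum, n1]
  refine (Int.natAbs_sum_le _ _).trans (Finset.sum_le_sum ?_)
  intro x _
  rw [Finsupp.single_apply]
  split_ifs
  · exact le_rfl
  · exact Nat.zero_le _

/-- Words of length `n` have `ℓ¹`-norm linear in `n`. -/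
theorem n1_of_len {A : Type} [AddCommGroup A] (S : Set (LW ℤ A)) (hS : S.Finite) :
    ∃ C : ℕ, 0 < C ∧ ∀ n g, LenLE S g n → n1 g.f ≤ C * n := by
  classical
  have hfin : (S ∪ S⁻¹).Finite := hS.union hS.inv
  have hC : ∀ᶠ C : ℕ in Filter.atTop, ∀ s ∈ hfin.toFinset, n1 s.f ≤ C := by
    rw [Filter.eventually_all_finset]
    intro s _
    exact Filter.eventually_ge_atTop _
  obtain ⟨C, hC, hC0⟩ := (hC.and (Filter.eventually_gt_atTop 0)).exists
  refine ⟨C, hC0, ?_⟩
  rintro n g ⟨l, h1, h2, rfl⟩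
  have key : ∀ l : List (LW ℤ A), (∀ s ∈ l, s ∈ S ∨ s⁻¹ ∈ S) → n1 l.prod.f ≤ C * l.length := by
    intro l
    induction l with
    | nil => intro _; simp [n1]
    | cons s l ih =>
      intro hl
      rw [List.prod_cons, List.length_cons, Nat.mul_succ, Nat.add_comm, mul_f]
      refine (n1_add_le _ _).trans (Nat.add_le_add ?_ ?_)
      · apply hC
        rw [Set.Finite.mem_toFinset]
        exact hl s List.mem_cons_self
      · rw [n1_sh]
        exact ih (fun t ht => hl t (List.mem_cons_of_mem _ ht))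
  exact (key l h1).trans (Nat.mul_le_mul_left _ h2)

end growth

section quotients

variable {k : ℕ}

/-- `LW R A` as a product. -/
def eqv (R A : Type) [AddCommGroup R] [AddCommGroup A] : LW R A ≃ (A →₀ R) × A where
  toFun g := (g.f, g.b)
  invFun x := ⟨x.1, x.2⟩
  left_inv _ := rfl
  right_inv _ := rfl

theorem card_LW (R A : Type) [AddCommGroup R] [AddCommGroup A] [Finite R] [Finite A] :
    Finite (LW R A) ∧ Nat.card (LW R A) = Nat.card R ^ Nat.card A * Nat.card A := by
  classical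
  have e : LW R A ≃ (A → R) × A := (eqv R A).trans
    (Equiv.prodCongr Finsupp.equivFunOnFinite (Equiv.refl A))
  refine ⟨Finite.of_equiv _ e.symm, ?_⟩
  rw [Nat.card_congr e, Nat.card_prod, Nat.card_fun]

/-- Passing to the range. -/
theorem to_range {G : Type} [Group G] (g h : G) (N : ℕ) (Q : Type) [Group Q] [Finite Q]
    (π : G →* Q) (hnc : ¬ IsConj (π g) (π h)) (hN : Nat.card Q ≤ N) :
    ∃ (Q : Type) (_ : Group Q) (_ : Finite Q) (π : G →* Q), Function.Surjective π ∧
      ¬ IsConj (π g) (π h) ∧ Nat.card Q ≤ N := by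
  refine ⟨π.range, inferInstance, inferInstance, π.rangeRestrict, π.rangeRestrict_surjective, ?_,
    ?_⟩
  · intro hc
    exact hnc (π.range.subtype.map_isConj hc)
  · exact (Nat.card_le_card_of_injective _ π.range.subtype_injective).trans hN

/-- The main bound. -/
theorem sep_bound {R R' : Type} [AddCommGroup R] [AddCommGroup R'] [Finite R'] (ρ : R →+ R')
    (r : ℕ) (hr : Nat.card R' ≤ r) (hr1 : 1 ≤ r) (g h : LW R (Fin k → ℤ)) (L : ℕ) (hL : 0 < L)
    (hg : Bdd g L) (hh : Bdd h L) (hnc : ¬ IsConj g h)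
    (hρ1 : ∀ a, ρ (cls g.b g.f a) = 0 → cls g.b g.f a = 0)
    (hρ2 : ∀ a, ρ (cls g.b h.f a) = 0 → cls g.b h.f a = 0)
    (hρ3 : ∀ c a, ρ (cls g.b (h.f - sh c g.f) a) = 0 → cls g.b (h.f - sh c g.f) a = 0) :
    ∃ (Q : Type) (_ : Group Q) (_ : Finite Q) (π : LW R (Fin k → ℤ) →* Q),
      Function.Surjective π ∧ ¬ IsConj (π g) (π h) ∧
      Nat.card Q ≤ (r * 2) ^ (48 * (k + 1) * L ^ 3) := by
  classical
  have hL3 : L ≤ L ^ 3 := Nat.le_self_pow (by norm_num) L
  have hL2 : L ≤ L ^ 2 := Nat.le_self_pow (by norm_num) L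
  by_cases hb : g.b = h.b
  · obtain ⟨f, b⟩ := g
    obtain ⟨f', b'⟩ := h
    have hb' : b = b' := hb
    subst hb'
    obtain ⟨D, hD1, hD2, hD3⟩ := exists_sep b f f' L hL hg.1 hh.1 hnc
    set X := 12 * (k + 1) * L ^ 2 with hX
    have hX0 : X ≠ 0 := by positivity
    obtain ⟨M, hMp, hM1, hM2⟩ := Nat.exists_prime_lt_and_le_two_mul X hX0
    have : Fact M.Prime := ⟨hMp⟩
    have hL0 : 1 ≤ L ^ 2 := Nat.one_le_pow _ _ hL
    have hXa : 12 * L ^ 2 ≤ X := by
      rw [hX]; nlinarith [Nat.zero_le (k * L ^ 2)]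
    have hXb : 3 * L ^ 2 * k ≤ X := by
      rw [hX]; nlinarith [Nat.zero_le (k * L ^ 2)]
    obtain ⟨m, hm0, hm1, θ, hθb, hθ⟩ := exists_theta b L (6 * L) hg.2.2 D (by
      intro d hd i
      obtain ⟨c, x, y, rfl, hx, hy, hc⟩ := hD2 d hd
      have hLc : ∀ t ∈ f.support, |t i| ≤ L := fun t ht => hg.2.1 t ht i
      have hLc' : ∀ t ∈ f'.support, |t i| ≤ L := fun t ht => hh.2.1 t ht i
      have h0 : (0 : ℤ) ≤ L := Nat.cast_nonneg _
      have hci : |c i| ≤ 2 * L := by
        rcases hc with rfl | ⟨s', hs', s, hs, rfl⟩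
        · rw [Pi.zero_apply, abs_zero]; linarith
        · rw [Pi.sub_apply]
          have h1 := abs_sub (s' i) (s i)
          have h2 := hLc s hs
          have h3 := hLc' s' hs'
          linarith
      have key : ∀ x : Fin k → ℤ, (x ∈ f.support ∨ x ∈ f'.support ∨ ∃ t ∈ f.support, x = c + t) →
          |x i| ≤ 3 * L := by
        rintro x (h | h | ⟨t, ht, rfl⟩)
        · have := hLc x h; linarith
        · have := hLc' x h; linarith
        · rw [Pi.add_apply]
          have h1 := abs_add_le (c i) (t i)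
          have h2 := hLc t ht
          linarith
      have h1 := key x hx
      have h2 := key y hy
      have h3 := abs_sub (x i) (y i)
      rw [Pi.sub_apply]
      push_cast
      linarith) M (by nlinarith) (by nlinarith) (by
        calc D.card * k ≤ 3 * L ^ 2 * k := Nat.mul_le_mul_right _ hD1
          _ ≤ X := hXb
          _ < M := hM1)
    have : NeZero m := ⟨hm0.ne'⟩
    have : NeZero M := ⟨hMp.ne_zero⟩
    obtain ⟨hfin, hcard⟩ := card_LW R' (ZMod M × ZMod m)
    have := hfin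
    apply to_range _ _ _ (LW R' (ZMod M × ZMod m)) ((mapHom θ).comp (coefHom ρ))
    · intro hc
      rw [isConj_iff'] at hc
      obtain ⟨_, c, u, hu⟩ := hc
      have e1 : (((mapHom θ).comp (coefHom ρ)) (⟨f, b⟩ : LW R (Fin k → ℤ))).b = 0 := hθb
      rw [e1, sh_zero, sub_self, add_zero] at hu
      exact hD3 θ ρ hθb hθ hρ1 hρ2 hρ3 c hu
    · rw [hcard, Nat.card_prod, Nat.card_zmod, Nat.card_zmod]
      have hMm : M * m ≤ 48 * (k + 1) * L ^ 3 := by
        calc M * m ≤ (2 * X) * (2 * L) := Nat.mul_le_mul hM2 (by omega)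
          _ = 48 * (k + 1) * L ^ 3 := by rw [hX]; ring
      calc Nat.card R' ^ (M * m) * (M * m) ≤ r ^ (M * m) * 2 ^ (M * m) :=
            Nat.mul_le_mul (Nat.pow_le_pow_left hr _) Nat.lt_two_pow_self.le
        _ = (r * 2) ^ (M * m) := (mul_pow _ _ _).symm
        _ ≤ (r * 2) ^ (48 * (k + 1) * L ^ 3) := Nat.pow_le_pow_right (by omega) hMm
  · obtain ⟨i, hi⟩ := Function.ne_iff.mp hb
    have : NeZero (2 * L + 1) := ⟨by omega⟩
    let π : LW R (Fin k → ℤ) →* Multiplicative (ZMod (2 * L + 1)) :=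
      { toFun := fun g => Multiplicative.ofAdd ((g.b i : ℤ) : ZMod (2 * L + 1))
        map_one' := by
          rw [one_b, Pi.zero_apply, Int.cast_zero]; rfl
        map_mul' := by
          intro x y
          rw [mul_b, Pi.add_apply, Int.cast_add]; rfl }
    apply to_range _ _ _ (Multiplicative (ZMod (2 * L + 1))) π
    · intro hc
      rw [isConj_iff_eq] at hc
      have h1 : ((g.b i : ℤ) : ZMod (2 * L + 1)) = ((h.b i : ℤ) : ZMod (2 * L + 1)) :=
        Multiplicative.ofAdd.injective hc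
      have h2 : ((g.b i - h.b i : ℤ) : ZMod (2 * L + 1)) = 0 := by
        rw [Int.cast_sub, h1, sub_self]
      refine cast_ne_zero (M := 2 * L + 1) (sub_ne_zero.mpr hi) ?_ h2
      have h3 := abs_sub (g.b i) (h.b i)
      have h4 := hg.2.2 i
      have h5 := hh.2.2 i
      push_cast
      linarith
    · have e : Nat.card (Multiplicative (ZMod (2 * L + 1))) = 2 * L + 1 := by
        rw [Nat.card_congr Multiplicative.toAdd, Nat.card_zmod]
      rw [e]
      calc 2 * L + 1 ≤ 2 ^ (2 * L) := Nat.lt_two_pow_self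
        _ ≤ (r * 2) ^ (2 * L) := Nat.pow_le_pow_left (by omega) _
        _ ≤ (r * 2) ^ (48 * (k + 1) * L ^ 3) := by
          apply Nat.pow_le_pow_right (by omega)
          nlinarith [Nat.zero_le (k * L ^ 3)]

end quotients

section final

variable {k : ℕ}

/-- The bound for `𝔽_p ≀ ℤ^k`. -/
theorem bound_p (p : ℕ) [hp : Fact p.Prime] (S : Set (LW (ZMod p) (Fin k → ℤ))) (hS : S.Finite) :
    ∃ c : ℕ, ∀ n : ℕ, 0 < n → ∀ g h : LW (ZMod p) (Fin k → ℤ), ¬ IsConj g h →
      LenLE S g n → LenLE S h n →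
      ∃ (Q : Type) (_ : Group Q) (_ : Finite Q) (π : LW (ZMod p) (Fin k → ℤ) →* Q),
        Function.Surjective π ∧ ¬ IsConj (π g) (π h) ∧ Nat.card Q ≤ 2 ^ (c * n ^ 3) := by
  obtain ⟨C, hC0, hC⟩ := bdd_of_len S hS
  refine ⟨(p * 2) * (48 * (k + 1) * C ^ 3), ?_⟩
  intro n hn g h hnc hg hh
  obtain ⟨Q, i1, i2, π, h1, h2, h3⟩ := sep_bound (AddMonoidHom.id (ZMod p)) p
    (by rw [Nat.card_zmod]) hp.out.one_lt.le g h (C * n) (Nat.mul_pos hC0 hn) (hC n g hg)
    (hC n h hh) hnc (fun _ h => h) (fun _ h => h) (fun _ _ h => h)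
  refine ⟨Q, i1, i2, π, h1, h2, h3.trans ?_⟩
  calc (p * 2) ^ (48 * (k + 1) * (C * n) ^ 3)
      ≤ (2 ^ (p * 2)) ^ (48 * (k + 1) * (C * n) ^ 3) :=
        Nat.pow_le_pow_left Nat.lt_two_pow_self.le _
    _ = 2 ^ ((p * 2) * (48 * (k + 1) * C ^ 3) * n ^ 3) := by
        rw [← pow_mul]; congr 1; ring

/-- The bound for `ℤ ≀ ℤ^k`. -/
theorem bound_Z (S : Set (LW ℤ (Fin k → ℤ))) (hS : S.Finite) :
    ∃ c : ℕ, ∀ n : ℕ, 0 < n → ∀ g h : LW ℤ (Fin k → ℤ), ¬ IsConj g h →
      LenLE S g n → LenLE S h n →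
      ∃ (Q : Type) (_ : Group Q) (_ : Finite Q) (π : LW ℤ (Fin k → ℤ) →* Q),
        Function.Surjective π ∧ ¬ IsConj (π g) (π h) ∧ Nat.card Q ≤ (c * n) ^ (c * n ^ 3) := by
  obtain ⟨C, hC0, hC⟩ := bdd_of_len S hS
  obtain ⟨C', hC0', hC'⟩ := n1_of_len S hS
  refine ⟨8 * C' + 48 * (k + 1) * C ^ 3, ?_⟩
  intro n hn g h hnc hg hh
  obtain ⟨l, hlp, hl1, hl2⟩ := Nat.exists_prime_lt_and_le_two_mul (2 * (C' * n)) (by positivity)
  have : Fact l.Prime := ⟨hlp⟩
  have : NeZero l := ⟨hlp.ne_zero⟩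
  have hg1 := hC' n g hg
  have hh1 := hC' n h hh
  have key : ∀ z : ℤ, z.natAbs ≤ 2 * (C' * n) → (Int.castAddHom (ZMod l)) z = 0 → z = 0 := by
    intro z hz h0
    by_contra hne
    refine cast_ne_zero (M := l) hne ?_ h0
    rw [Int.abs_eq_natAbs]
    exact_mod_cast lt_of_le_of_lt hz hl1
  obtain ⟨Q, i1, i2, π, h1, h2, h3⟩ := sep_bound (Int.castAddHom (ZMod l)) l
    (by rw [Nat.card_zmod]) hlp.one_lt.le g h (C * n) (Nat.mul_pos hC0 hn) (hC n g hg)
    (hC n h hh) hnc
    (fun a => key _ ((natAbs_mapDomain_le _ _ _).trans (by omega)))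
    (fun a => key _ ((natAbs_mapDomain_le _ _ _).trans (by omega)))
    (fun c a => key _ ((natAbs_mapDomain_le _ _ _).trans ((n1_sub_le _ _).trans (by
      rw [n1_sh]; omega))))
  refine ⟨Q, i1, i2, π, h1, h2, h3.trans ?_⟩
  have hb : l * 2 ≤ (8 * C' + 48 * (k + 1) * C ^ 3) * n := by
    have : l * 2 ≤ 8 * C' * n := by nlinarith
    refine this.trans (Nat.mul_le_mul_right _ (Nat.le_add_right _ _))
  have hb0 : 0 < (8 * C' + 48 * (k + 1) * C ^ 3) * n :=
    lt_of_lt_of_le (Nat.mul_pos hlp.pos (by norm_num)) hb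
  calc (l * 2) ^ (48 * (k + 1) * (C * n) ^ 3)
      ≤ ((8 * C' + 48 * (k + 1) * C ^ 3) * n) ^ (48 * (k + 1) * (C * n) ^ 3) :=
        Nat.pow_le_pow_left hb _
    _ ≤ ((8 * C' + 48 * (k + 1) * C ^ 3) * n) ^ ((8 * C' + 48 * (k + 1) * C ^ 3) * n ^ 3) := by
        apply Nat.pow_le_pow_right hb0
        rw [mul_pow, ← mul_assoc]
        exact Nat.mul_le_mul_right _ (Nat.le_add_left _ _)

/-- `D_G(g,h)`: the least order of a finite quotient of `G` in which the images of `g` and `h` are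
not conjugate. -/
noncomputable def depth {G : Type} [Group G] (g h : G) : ℕ :=
  sInf {m | ∃ (Q : Type) (_ : Group Q) (_ : Finite Q) (π : G →* Q), Function.Surjective π ∧
    ¬ IsConj (π g) (π h) ∧ Nat.card Q = m}

/-- The conjugacy depth function `Conj_G(n)` with respect to the generating set `S`. -/
noncomputable def conjDepth {G : Type} [Group G] (S : Set G) (n : ℕ) : ℕ :=
  sSup {m | ∃ g h : G, ¬ IsConj g h ∧ LenLE S g n ∧ LenLE S h n ∧ m = depth g h}

/-- `f ⪯ g`: there is `C > 0` with `f n ≤ C * g (C * n)` for all `n`. -/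
def Preceq (f g : ℕ → ℝ) : Prop := ∃ C : ℕ, 0 < C ∧ ∀ n, f n ≤ C * g (C * n)

theorem conjDepth_le {G : Type} [Group G] (S : Set G) (n N : ℕ)
    (h : ∀ g h : G, ¬ IsConj g h → LenLE S g n → LenLE S h n →
      ∃ (Q : Type) (_ : Group Q) (_ : Finite Q) (π : G →* Q),
        Function.Surjective π ∧ ¬ IsConj (π g) (π h) ∧ Nat.card Q ≤ N) : conjDepth S n ≤ N := by
  apply csSup_le'
  rintro m ⟨g, g', h1, h2, h3, rfl⟩
  obtain ⟨Q, i1, i2, π, h4, h5, h6⟩ := h g g' h1 h2 h3
  have h7 : depth g g' ≤ Nat.card Q := Nat.sInf_le ⟨Q, i1, i2, π, h4, h5, rfl⟩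
  exact h7.trans h6

/-- Any two non-conjugate elements of `S`-length at most `n` (`n ≥ 1`) have non-conjugate images in
some finite quotient of order at most `F n`. -/
def SepWithin {G : Type} [Group G] (S : Set G) (F : ℕ → ℕ) : Prop :=
  ∀ n : ℕ, 0 < n → ∀ g h : G, ¬ IsConj g h → LenLE S g n → LenLE S h n →
    ∃ (Q : Type) (_ : Group Q) (_ : Finite Q) (π : G →* Q), Function.Surjective π ∧
      ¬ IsConj (π g) (π h) ∧ Nat.card Q ≤ F n

/-- The group `𝔽_p ≀ ℤ^k`. -/
abbrev Lamp (p k : ℕ) : Type := LW (ZMod p) (Fin k → ℤ)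

/-- The group `ℤ ≀ ℤ^k`. -/
abbrev LampZ (k : ℕ) : Type := LW ℤ (Fin k → ℤ)

/-- **MP_9ae5d9_al, Q1 and Q2: both bounds fail for every `k ≥ 4`.** -/
theorem result :
    (∀ p : ℕ, p.Prime → ∀ (k : ℕ) (S : Set (Lamp p k)), S.Finite →
      ∃ c : ℕ, SepWithin S (fun n => 2 ^ (c * n ^ 3))) ∧
    (∀ (k : ℕ) (S : Set (LampZ k)), S.Finite →
      ∃ c : ℕ, SepWithin S (fun n => (c * n) ^ (c * n ^ 3))) ∧
    (∀ p : ℕ, p.Prime → ∀ k : ℕ, 4 ≤ k → ∀ S : Set (Lamp p k), S.Finite →
      Subgroup.closure S = ⊤ →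
      ¬ Preceq (fun n => (2 : ℝ) ^ (n ^ k)) (fun n => (conjDepth S n : ℝ))) ∧
    (∀ k : ℕ, 4 ≤ k → ∀ S : Set (LampZ k), S.Finite → Subgroup.closure S = ⊤ →
      ¬ Preceq (fun n => Real.log n ^ (n ^ k)) (fun n => (conjDepth S n : ℝ))) := by
  refine ⟨?_, fun k S hS => bound_Z S hS, ?_, ?_⟩
  · intro p hp k S hS
    have : Fact p.Prime := ⟨hp⟩
    exact bound_p p S hS
  · intro p hp k hk S hS _ hP
    have : Fact p.Prime := ⟨hp⟩
    obtain ⟨C, hC0, hC⟩ := hP
    obtain ⟨c, hc⟩ := bound_p p S hS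
    set n := c * C ^ 3 + C + 1 with hn
    have hn0 : 0 < n := by omega
    have h1 : conjDepth S (C * n) ≤ 2 ^ (c * (C * n) ^ 3) :=
      conjDepth_le S _ _ (fun g h a b d => hc (C * n) (Nat.mul_pos hC0 hn0) g h a b d)
    have h2 : (2 : ℝ) ^ (n ^ k) ≤ C * (conjDepth S (C * n) : ℝ) := hC n
    have h3 : 2 ^ (n ^ k) ≤ C * conjDepth S (C * n) := by exact_mod_cast h2
    have h4 : 2 ^ (n ^ k) ≤ C * 2 ^ (c * (C * n) ^ 3) := h3.trans (Nat.mul_le_mul_left _ h1)
    have h5 : C + c * (C * n) ^ 3 ≤ n ^ k := by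
      calc C + c * (C * n) ^ 3 = C * 1 + c * C ^ 3 * n ^ 3 := by ring
        _ ≤ C * n ^ 3 + c * C ^ 3 * n ^ 3 :=
            Nat.add_le_add_right (Nat.mul_le_mul_left _ (Nat.one_le_pow _ _ hn0)) _
        _ ≤ (c * C ^ 3 + C + 1) * n ^ 3 := by
            have : 0 ≤ n ^ 3 := Nat.zero_le _
            nlinarith
        _ = n ^ 4 := by rw [← hn]; ring
        _ ≤ n ^ k := Nat.pow_le_pow_right hn0 hk
    have h6 : C * 2 ^ (c * (C * n) ^ 3) < 2 ^ (n ^ k) := by
      calc C * 2 ^ (c * (C * n) ^ 3) < 2 ^ C * 2 ^ (c * (C * n) ^ 3) :=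
            Nat.mul_lt_mul_of_pos_right Nat.lt_two_pow_self (by positivity)
        _ = 2 ^ (C + c * (C * n) ^ 3) := (pow_add _ _ _).symm
        _ ≤ 2 ^ (n ^ k) := Nat.pow_le_pow_right (by norm_num) h5
    omega
  · intro k hk S hS _ hP
    obtain ⟨C, hC0, hC⟩ := hP
    obtain ⟨c, hc⟩ := bound_Z S hS
    set K := C + c * C * (c * C ^ 3) + c * C ^ 3 with hK
    have hK0 : 0 < K := by omega
    set j := 3 * K with hj
    set n := 2 ^ j with hn
    have hn0 : 0 < n := by positivity
    have h1 : conjDepth S (C * n) ≤ (c * (C * n)) ^ (c * (C * n) ^ 3) :=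
      conjDepth_le S _ _ (fun g h a b d => hc (C * n) (Nat.mul_pos hC0 hn0) g h a b d)
    have h2 : Real.log n ^ (n ^ k) ≤ C * (conjDepth S (C * n) : ℝ) := hC n
    have hlog : (2 : ℝ) ≤ Real.log n := by
      rw [hn]
      push_cast
      rw [Real.log_pow]
      have h3 : (3 : ℝ) ≤ (j : ℝ) := by
        rw [hj]; exact_mod_cast (by omega : 3 ≤ 3 * K)
      have h4 := Real.log_two_gt_d9
      nlinarith
    have h3 : (2 : ℝ) ^ (n ^ k) ≤ C * (conjDepth S (C * n) : ℝ) :=
      (pow_le_pow_left₀ (by norm_num) hlog _).trans h2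
    have h3' : 2 ^ (n ^ k) ≤ C * conjDepth S (C * n) := by exact_mod_cast h3
    have h4 : 2 ^ (n ^ k) ≤ C * (c * (C * n)) ^ (c * (C * n) ^ 3) :=
      h3'.trans (Nat.mul_le_mul_left _ h1)
    have h5 : c * (C * n) ≤ 2 ^ (c * C + j) := by
      rw [pow_add, ← hn, ← mul_assoc]
      exact Nat.mul_le_mul_right _ Nat.lt_two_pow_self.le
    have h6 : C + (c * C + j) * (c * C ^ 3) < 2 ^ j := by
      have e1 : 2 ^ j = 2 ^ K * 2 ^ K * 2 ^ K := by rw [hj]; ring
      have e2 : K + 1 ≤ 2 ^ K := Nat.lt_two_pow_self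
      have e3 : (K + 1) * (K + 1) * (K + 1) ≤ 2 ^ K * 2 ^ K * 2 ^ K :=
        Nat.mul_le_mul (Nat.mul_le_mul e2 e2) e2
      have e4 : C + (c * C + j) * (c * C ^ 3) ≤ K * (j + 1) := by
        have : C + (c * C + j) * (c * C ^ 3) = (C + c * C * (c * C ^ 3)) + j * (c * C ^ 3) := by
          ring
        rw [this, hK]
        nlinarith [Nat.zero_le (j * (C + c * C * (c * C ^ 3)))]
      have e5 : K * (j + 1) < (K + 1) * (K + 1) * (K + 1) := by
        rw [hj]; nlinarith [Nat.zero_le (K * K * K)]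
      omega
    have h7 : C + (c * C + j) * (c * (C * n) ^ 3) < n ^ k := by
      calc C + (c * C + j) * (c * (C * n) ^ 3) = C * 1 + (c * C + j) * (c * C ^ 3) * n ^ 3 := by
            ring
        _ ≤ C * n ^ 3 + (c * C + j) * (c * C ^ 3) * n ^ 3 :=
            Nat.add_le_add_right (Nat.mul_le_mul_left _ (Nat.one_le_pow _ _ hn0)) _
        _ = (C + (c * C + j) * (c * C ^ 3)) * n ^ 3 := by ring
        _ < 2 ^ j * n ^ 3 := Nat.mul_lt_mul_of_pos_right h6 (by positivity)
        _ = n ^ 4 := by rw [← hn]; ring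
        _ ≤ n ^ k := Nat.pow_le_pow_right hn0 hk
    have h8 : C * (c * (C * n)) ^ (c * (C * n) ^ 3) < 2 ^ (n ^ k) := by
      calc C * (c * (C * n)) ^ (c * (C * n) ^ 3)
          ≤ 2 ^ C * (2 ^ (c * C + j)) ^ (c * (C * n) ^ 3) :=
            Nat.mul_le_mul Nat.lt_two_pow_self.le (Nat.pow_le_pow_left h5 _)
        _ = 2 ^ (C + (c * C + j) * (c * (C * n) ^ 3)) := by rw [← pow_mul, ← pow_add]
        _ < 2 ^ (n ^ k) := Nat.pow_lt_pow_right (by norm_num) h7
    omega

end final

end Pool.Agent.Results.MP_9ae5d9_al.ConjDepthUpper
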